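import Pool.Agent.MP_dcb13e_co.H59.Spec

/-! The elimination lemma from the density lemma. -/

namespace Pool.Agent.MP_dcb13e_co.H47

open Pool.Agent.MP_dcb13e_co.H59

variable {V M : Type} [DecidableEq V]

/-- model 1: the pieces carrying distinct pairs are few -/
lemma card_Y0 (hD : SDens) (G : SimpleGraph V) (t : ℕ) (hK : ¬ KM G t) (X : Finset V)
    (Y : Finset M) (C : M → Set V) (A : M → Finset V) (h1 : ∀ m ∈ Y, Pc G (C m))
    (h2 : ∀ m ∈ Y, ∀ m' ∈ Y, m ≠ m' → Disjoint (C m) (C m')) (h3 : ∀ m ∈ Y, ∀ x ∈ X, x ∉ C m)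
    (h4 : ∀ m ∈ Y, A m ⊆ X ∧ (A m).Nonempty ∧ ∀ x ∈ A m, ∃ u ∈ C m, G.Adj x u)
    (p : M → V × V) (hinj : Set.InjOn p Y)
    (hp : ∀ m ∈ Y, (p m).1 ∈ A m ∧ (p m).2 ∈ A m ∧ (p m).1 ≠ (p m).2) :
    Y.card ≤ 2 * (3 * (t ^ 2 + t) + 3) * X.card := by
  classical
  let B : V → Set V := fun z => {z} ∪ ⋃ m ∈ {m | m ∈ Y ∧ (p m).1 = z}, C m
  have hB : ∀ z u, u ∈ B z ↔ u = z ∨ ∃ m ∈ Y, (p m).1 = z ∧ u ∈ C m := by
    intro z u
    simp only [B, Set.mem_union, Set.mem_singleton_iff, Set.mem_iUnion, Set.mem_ofPred_eq]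
    constructor
    · rintro (h | ⟨m, ⟨hm, hz⟩, hu⟩)
      · exact Or.inl h
      · exact Or.inr ⟨m, hm, hz, hu⟩
    · rintro (h | ⟨m, hm, hz, hu⟩)
      · exact Or.inl h
      · exact Or.inr ⟨m, ⟨hm, hz⟩, hu⟩
  have hd := hD G t hK X B (fun z _ => by
      refine pc_star (pc_single z) ⟨z, rfl⟩ ?_
      rintro m ⟨hm, hz⟩
      obtain ⟨u, hu, ha⟩ := (h4 m hm).2.2 _ (hp m hm).1
      exact ⟨h1 m hm, z, rfl, u, hu, hz ▸ ha⟩)
    (fun z hz z' hz' hne => by
      rw [Set.disjoint_left]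
      intro u hu hu'
      rw [hB] at hu hu'
      rcases hu with rfl | ⟨m, hm, hmz, hu⟩
      · rcases hu' with h | ⟨m', hm', _, hu'⟩
        · exact hne h
        · exact h3 m' hm' _ hz hu'
      · rcases hu' with rfl | ⟨m', hm', hmz', hu'⟩
        · exact h3 m hm _ hz' hu
        · have : m ≠ m' := by
            rintro rfl
            exact hne (hmz.symm.trans hmz')
          exact Set.disjoint_left.1 (h2 m hm m' hm' this) hu hu')
  refine le_trans ?_ hd
  rw [Finset.card_eq_sum_card_fiberwise (f := fun m => (p m).1) (t := X)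
    (fun m hm => (h4 m hm).1 (hp m hm).1)]
  refine Finset.sum_le_sum fun z _ => ?_
  refine Finset.card_le_card_of_injOn (fun m => (p m).2) ?_ ?_
  · intro m hm
    simp only [Finset.coe_filter, Set.mem_ofPred_eq] at hm ⊢
    obtain ⟨hm, hz⟩ := hm
    obtain ⟨u, hu, ha⟩ := (h4 m hm).2.2 _ (hp m hm).2.1
    refine ⟨(h4 m hm).1 (hp m hm).2.1, fun h => (hp m hm).2.2 (hz.trans h.symm), u, ?_, _, ?_,
      ha.symm⟩
    · exact (hB _ _).2 (Or.inr ⟨m, hm, hz, hu⟩)
    · exact (hB _ _).2 (Or.inl rfl)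
  · intro m hm m' hm' h
    simp only [Finset.coe_filter, Set.mem_ofPred_eq] at hm hm'
    exact hinj hm.1 hm'.1 (Prod.ext (hm.2.trans hm'.2.symm) h)

/-- model 2: the incidences between hubs and pieces are few -/
lemma sum_inc (hD : SDens) (G : SimpleGraph V) (t : ℕ) (hK : ¬ KM G t) (X : Finset V)
    (Y : Finset M) (C : M → Set V) (A : M → Finset V) (h1 : ∀ m ∈ Y, Pc G (C m))
    (h2 : ∀ m ∈ Y, ∀ m' ∈ Y, m ≠ m' → Disjoint (C m) (C m')) (h3 : ∀ m ∈ Y, ∀ x ∈ X, x ∉ C m)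
    (h4 : ∀ m ∈ Y, A m ⊆ X ∧ (A m).Nonempty ∧ ∀ x ∈ A m, ∃ u ∈ C m, G.Adj x u) :
    ∑ z ∈ X, (Y.filter (fun m => z ∈ A m)).card ≤
      2 * (3 * (t ^ 2 + t) + 3) * (X.card + Y.card) := by
  classical
  let B : V ⊕ M → Set V := Sum.elim (fun z => {z}) C
  have hd := hD G t hK (X.disjSum Y) B (fun i hi => by
      rcases i with z | m
      · exact pc_single z
      · exact h1 m (by simpa using hi))
    (fun i hi j hj hne => by
      rcases i with z | m <;> rcases j with z' | m'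
      · simpa [B] using fun h : z = z' => hne (by rw [h])
      · simpa [B] using h3 m' (by simpa using hj) z (by simpa using hi)
      · simpa [B] using h3 m (by simpa using hi) z' (by simpa using hj)
      · exact h2 m (by simpa using hi) m' (by simpa using hj) (fun h => hne (by rw [h])))
  rw [Finset.card_disjSum, Finset.sum_disjSum] at hd
  refine le_trans ?_ (le_trans (Nat.le_add_right _ _) hd)
  refine Finset.sum_le_sum fun z _ => ?_
  refine Finset.card_le_card_of_injOn Sum.inr ?_ Sum.inr_injective.injOn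
  intro m hm
  simp only [Finset.coe_filter, Set.mem_ofPred_eq] at hm ⊢
  obtain ⟨u, hu, ha⟩ := (h4 m hm.1).2.2 _ hm.2
  exact ⟨by simpa using hm.1, by simp, z, rfl, u, hu, ha⟩

lemma key (hD : SDens) (G : SimpleGraph V) (t : ℕ) (hK : ¬ KM G t) (X : Finset V)
    (Y : Finset M) (C : M → Set V) (A : M → Finset V) (h1 : ∀ m ∈ Y, Pc G (C m))
    (h2 : ∀ m ∈ Y, ∀ m' ∈ Y, m ≠ m' → Disjoint (C m) (C m')) (h3 : ∀ m ∈ Y, ∀ x ∈ X, x ∉ C m)
    (h4 : ∀ m ∈ Y, A m ⊆ X ∧ (A m).Nonempty ∧ ∀ x ∈ A m, ∃ u ∈ C m, G.Adj x u)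
    (hX : X.Nonempty) :
    ∃ z ∈ X, ∃ (Sz : Finset V) (Ez : Finset M), Sz.card ≤ beta t ∧ Ez.card ≤ beta t ∧
      ∀ m ∈ Y, z ∈ A m → m ∈ Ez ∨ A m ⊆ insert z Sz := by
  classical
  obtain ⟨x0, hx0⟩ := hX
  let Q : Finset M → Prop := fun Y0 => ∃ p : M → V × V, Set.InjOn p Y0 ∧
    ∀ m ∈ Y0, (p m).1 ∈ A m ∧ (p m).2 ∈ A m ∧ (p m).1 ≠ (p m).2
  obtain ⟨Y0, hY0, hmax⟩ := Finset.exists_max_image (Y.powerset.filter Q) Finset.card
    ⟨∅, by
      simp only [Finset.mem_filter, Finset.empty_mem_powerset, true_and, Q]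
      exact ⟨fun _ => (x0, x0), by simp, by simp⟩⟩
  rw [Finset.mem_filter, Finset.mem_powerset] at hY0
  obtain ⟨hsub, p, hinj, hp⟩ := hY0
  have hcov : ∀ m ∈ Y, m ∉ Y0 → ∀ a ∈ A m, ∀ b ∈ A m, a ≠ b → ∃ m' ∈ Y0, p m' = (a, b) := by
    intro m hm hm0 a ha b hb hab
    by_contra hc
    push Not at hc
    have : (insert m Y0).card ≤ Y0.card := by
      apply hmax
      rw [Finset.mem_filter, Finset.mem_powerset]
      refine ⟨Finset.insert_subset hm hsub, Function.update p m (a, b), ?_, ?_⟩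
      · intro u hu v hv huv
        simp only [Finset.coe_insert, Set.mem_insert_iff, Finset.mem_coe] at hu hv
        rcases hu with rfl | hu <;> rcases hv with rfl | hv
        · rfl
        · have hv' : v ≠ u := fun h => hm0 (h ▸ hv)
          rw [Function.update_self, Function.update_of_ne hv'] at huv
          exact absurd huv.symm (hc v hv)
        · have hu' : u ≠ v := fun h => hm0 (h ▸ hu)
          rw [Function.update_self, Function.update_of_ne hu'] at huv
          exact absurd huv (hc u hu)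
        · have hu' : u ≠ m := fun h => hm0 (h ▸ hu)
          have hv' : v ≠ m := fun h => hm0 (h ▸ hv)
          rw [Function.update_of_ne hu', Function.update_of_ne hv'] at huv
          exact hinj hu hv huv
      · intro u hu
        rcases Finset.mem_insert.1 hu with rfl | hu
        · rw [Function.update_self]
          exact ⟨ha, hb, hab⟩
        · have hu' : u ≠ m := fun h => hm0 (h ▸ hu)
          rw [Function.update_of_ne hu']
          exact hp u hu
    rw [Finset.card_insert_of_notMem hm0] at this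
    omega
  have c1 := card_Y0 hD G t hK X Y0 C A (fun m hm => h1 m (hsub hm))
    (fun m hm m' hm' => h2 m (hsub hm) m' (hsub hm')) (fun m hm => h3 m (hsub hm))
    (fun m hm => h4 m (hsub hm)) p hinj hp
  have c2 := sum_inc hD G t hK X Y0 C A (fun m hm => h1 m (hsub hm))
    (fun m hm m' hm' => h2 m (hsub hm) m' (hsub hm')) (fun m hm => h3 m (hsub hm))
    (fun m hm => h4 m (hsub hm))
  have c3 : ∑ z ∈ X, (Y0.filter (fun m => z ∈ A m)).card ≤ ∑ _z ∈ X, beta t := by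
    rw [Finset.sum_const, smul_eq_mul]
    refine c2.trans ?_
    unfold beta
    generalize 2 * (3 * (t ^ 2 + t) + 3) = a at c1 ⊢
    nlinarith [Nat.mul_le_mul_left a c1]
  obtain ⟨z, hz, hle⟩ := Finset.exists_le_of_sum_le ⟨x0, hx0⟩ c3
  refine ⟨z, hz, (Y0.filter (fun m => (p m).1 = z)).image (fun m => (p m).2),
    Y0.filter (fun m => z ∈ A m), ?_, hle, ?_⟩
  · refine Finset.card_image_le.trans (le_trans (Finset.card_le_card ?_) hle)
    intro m hm
    rw [Finset.mem_filter] at hm ⊢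
    exact ⟨hm.1, hm.2 ▸ (hp m hm.1).1⟩
  · intro m hm hzm
    by_cases hm0 : m ∈ Y0
    · exact Or.inl (Finset.mem_filter.2 ⟨hm0, hzm⟩)
    · refine Or.inr fun b hb => ?_
      by_cases hbz : b = z
      · exact hbz ▸ Finset.mem_insert_self _ _
      · obtain ⟨m', hm', hpm⟩ := hcov m hm hm0 z hzm b hb (Ne.symm hbz)
        refine Finset.mem_insert_of_mem (Finset.mem_image.2 ⟨m', ?_, by rw [hpm]⟩)
        exact Finset.mem_filter.2 ⟨hm', by rw [hpm]⟩

theorem elim_ne [Nonempty V] (hD : SDens) (G : SimpleGraph V) (t : ℕ) (hK : ¬ KM G t)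
    (X : Finset V) (Y : Finset M) (C : M → Set V) (A : M → Finset V) (h1 : ∀ m ∈ Y, Pc G (C m))
    (h2 : ∀ m ∈ Y, ∀ m' ∈ Y, m ≠ m' → Disjoint (C m) (C m')) (h3 : ∀ m ∈ Y, ∀ x ∈ X, x ∉ C m)
    (h4 : ∀ m ∈ Y, A m ⊆ X ∧ (A m).Nonempty ∧ ∀ x ∈ A m, ∃ u ∈ C m, G.Adj x u) :
    ∃ (ζ : M → V) (S : V → Finset V) (E : V → Finset M),
      (∀ m ∈ Y, ζ m ∈ A m ∧ (m ∈ E (ζ m) ∨ A m ⊆ insert (ζ m) (S (ζ m)))) ∧
      ∀ z, (S z).card ≤ beta t ∧ (E z).card ≤ beta t := by
  classical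
  induction' hn : X.card with n ih generalizing X Y
  · rw [Finset.card_eq_zero] at hn
    subst hn
    refine ⟨fun _ => Classical.arbitrary V, fun _ => ∅, fun _ => ∅, fun m hm => ?_, by simp⟩
    obtain ⟨x, hx⟩ := (h4 m hm).2.1
    exact absurd ((h4 m hm).1 hx) (by simp)
  · obtain ⟨z, hz, Sz, Ez, hS, hE, hk⟩ := key hD G t hK X Y C A h1 h2 h3 h4
      (Finset.card_pos.1 (by omega))
    have hs : ∀ m ∈ Y.filter (fun m => z ∉ A m), m ∈ Y := fun m hm => (Finset.mem_filter.1 hm).1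
    obtain ⟨ζ, S, E, hζ, hc⟩ := ih (X.erase z) (Y.filter (fun m => z ∉ A m))
      (fun m hm => h1 m (hs m hm)) (fun m hm m' hm' => h2 m (hs m hm) m' (hs m' hm'))
      (fun m hm x hx => h3 m (hs m hm) x (Finset.mem_of_mem_erase hx))
      (fun m hm => ⟨fun x hx => Finset.mem_erase.2
        ⟨fun h => (Finset.mem_filter.1 hm).2 (h ▸ hx), (h4 m (hs m hm)).1 hx⟩,
        (h4 m (hs m hm)).2⟩) (by rw [Finset.card_erase_of_mem hz]; omega)
    refine ⟨fun m => if z ∈ A m then z else ζ m, Function.update S z Sz, Function.update E z Ez,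
      fun m hm => ?_, fun y => ?_⟩
    · by_cases hzm : z ∈ A m
      · simp only [if_pos hzm, Function.update_self]
        exact ⟨hzm, hk m hm hzm⟩
      · simp only [if_neg hzm]
        have h := hζ m (Finset.mem_filter.2 ⟨hm, hzm⟩)
        have hne : ζ m ≠ z := fun h' => hzm (h' ▸ h.1)
        rw [Function.update_of_ne hne, Function.update_of_ne hne]
        exact h
    · by_cases hy : y = z
      · subst hy
        simp only [Function.update_self]
        exact ⟨hS, hE⟩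
      · rw [Function.update_of_ne hy, Function.update_of_ne hy]
        exact hc y

end Pool.Agent.MP_dcb13e_co.H47
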